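import Mathlib

namespace Pool.Agent.Results.MP_bbfbdc_al.SphereLower

/-- The automorphism `a`: it changes the first letter of a nonempty word (`false` is 0, `true` is 1). -/
def aFun : List Bool → List Bool
  | [] => []
  | x :: w => (!x) :: w

mutual
/-- `b(0w) = 0 a(w)`, `b(1w) = 1 c(w)`. -/
def bFun : List Bool → List Bool
  | [] => []
  | false :: w => false :: aFun w
  | true :: w => true :: cFun w
/-- `c(0w) = 0 a(w)`, `c(1w) = 1 d(w)`. -/
def cFun : List Bool → List Bool
  | [] => []
  | false :: w => false :: aFun w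
  | true :: w => true :: dFun w
/-- `d(0w) = 0 w`, `d(1w) = 1 b(w)`. -/
def dFun : List Bool → List Bool
  | [] => []
  | false :: w => false :: w
  | true :: w => true :: bFun w
end

theorem aFun_invol : Function.Involutive aFun := by
  intro w
  cases w <;> simp [aFun]

theorem bcd_invol (w : List Bool) :
    bFun (bFun w) = w ∧ cFun (cFun w) = w ∧ dFun (dFun w) = w := by
  induction w with
  | nil => simp [bFun, cFun, dFun]
  | cons x w ih =>
    obtain ⟨h1, h2, h3⟩ := ih
    cases x
    · simp [bFun, cFun, dFun, aFun_invol w]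
    · simp [bFun, cFun, dFun, h1, h2, h3]

/-- The four generators as permutations of the set of finite binary words. -/
def a : Equiv.Perm (List Bool) := Function.Involutive.toPerm aFun aFun_invol
def b : Equiv.Perm (List Bool) := Function.Involutive.toPerm bFun (fun w => (bcd_invol w).1)
def c : Equiv.Perm (List Bool) := Function.Involutive.toPerm cFun (fun w => (bcd_invol w).2.1)
def d : Equiv.Perm (List Bool) := Function.Involutive.toPerm dFun (fun w => (bcd_invol w).2.2)

/-- The first Grigorchuk group. -/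
def G : Subgroup (Equiv.Perm (List Bool)) := Subgroup.closure {a, b, c, d}

/-- Word length: the least length of a word in the letters `a, b, c, d` representing `g`. -/
noncomputable def len (g : G) : ℕ :=
  sInf {n : ℕ | ∃ l : List (Equiv.Perm (List Bool)),
    l.length = n ∧ (∀ s ∈ l, s = a ∨ s = b ∨ s = c ∨ s = d) ∧ l.prod = (g : Equiv.Perm (List Bool))}

/-- The growth function (number of elements of length at most `n`). -/
noncomputable def ball (n : ℕ) : ℕ := Nat.card {g : G // len g ≤ n}

/-- The spherical growth function (number of elements of length exactly `n`). -/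
noncomputable def sph (n : ℕ) : ℕ := Nat.card {g : G // len g = n}

/-- Letters. -/
inductive Lt
  | A | B | C | D

instance : Finite Lt :=
  Finite.of_surjective (fun i : Fin 4 => if i = 0 then Lt.A else if i = 1 then Lt.B else
    if i = 2 then Lt.C else Lt.D) (by
    intro s
    cases s
    · exact ⟨0, rfl⟩
    · exact ⟨1, rfl⟩
    · exact ⟨2, rfl⟩
    · exact ⟨3, rfl⟩)

def gen : Lt → Equiv.Perm (List Bool)
  | .A => a
  | .B => b
  | .C => c
  | .D => d

def ev (w : List Lt) : Equiv.Perm (List Bool) := (w.map gen).prod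

@[simp] theorem ev_nil : ev [] = 1 := rfl
@[simp] theorem ev_cons (s : Lt) (w : List Lt) : ev (s :: w) = gen s * ev w := by simp [ev]
theorem ev_append (v w : List Lt) : ev (v ++ w) = ev v * ev w := by simp [ev]

theorem a_apply (w : List Bool) : a w = aFun w := rfl
theorem b_apply (w : List Bool) : b w = bFun w := rfl
theorem c_apply (w : List Bool) : c w = cFun w := rfl
theorem d_apply (w : List Bool) : d w = dFun w := rfl

theorem gen_sq (s : Lt) : gen s * gen s = 1 := by
  ext1 w
  cases s
  · exact aFun_invol w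
  · exact (bcd_invol w).1
  · exact (bcd_invol w).2.1
  · exact (bcd_invol w).2.2

theorem gen_inv (s : Lt) : (gen s)⁻¹ = gen s := by
  rw [inv_eq_iff_mul_eq_one, gen_sq]

/-- `f` fixes the first level, with sections `f0`, `f1`. -/
def Sec (f f0 f1 : Equiv.Perm (List Bool)) : Prop :=
  ∀ w, f (false :: w) = false :: f0 w ∧ f (true :: w) = true :: f1 w

theorem Sec.mul {f f0 f1 g g0 g1 : Equiv.Perm (List Bool)} (hf : Sec f f0 f1) (hg : Sec g g0 g1) :
    Sec (f * g) (f0 * g0) (f1 * g1) := by
  intro w
  simp only [Equiv.Perm.mul_apply]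
  rw [(hg w).1, (hg w).2]
  exact ⟨(hf _).1, (hf _).2⟩

theorem Sec.one : Sec 1 1 1 := fun _ => ⟨rfl, rfl⟩

theorem sec_b : Sec b a c := fun w => by simp [b_apply, a_apply, c_apply, bFun]
theorem sec_c : Sec c a d := fun w => by simp [c_apply, a_apply, d_apply, cFun]
theorem sec_d : Sec d 1 b := fun w => by simp [b_apply, d_apply, dFun]

theorem Sec.conj {f f0 f1 : Equiv.Perm (List Bool)} (hf : Sec f f0 f1) : Sec (a * f * a) f1 f0 := by
  intro w
  simp only [Equiv.Perm.mul_apply, a_apply, aFun, Bool.not_false, Bool.not_true]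
  rw [(hf w).1, (hf w).2]
  simp

theorem Sec.unique {f f0 f1 g0 g1 : Equiv.Perm (List Bool)} (h : Sec f f0 f1) (h' : Sec f g0 g1) :
    f0 = g0 ∧ f1 = g1 := by
  constructor
  · ext1 w
    have := (h w).1.symm.trans (h' w).1
    simpa using this
  · ext1 w
    have := (h w).2.symm.trans (h' w).2
    simpa using this

/-- The substitution `a → aca`, `b → d`, `c → b`, `d → c`. -/
def sg : Lt → List Lt
  | .A => [.A, .C, .A]
  | .B => [.D]
  | .C => [.B]
  | .D => [.C]

def sig (w : List Lt) : List Lt := w.flatMap sg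

def tauG : Lt → Equiv.Perm (List Bool)
  | .A => d
  | .B => 1
  | .C => a
  | .D => a

def tau (w : List Lt) : Equiv.Perm (List Bool) := (w.map tauG).prod

theorem sec_sig (w : List Lt) : Sec (ev (sig w)) (tau w) (ev w) := by
  induction w with
  | nil => exact Sec.one
  | cons s w ih =>
    have h : Sec (ev (sg s)) (tauG s) (gen s) := by
      cases s
      · have := sec_c.conj
        simpa [sg, tauG, gen, ev, mul_assoc] using this
      · simpa [sg, tauG, gen, ev] using sec_d
      · simpa [sg, tauG, gen, ev] using sec_b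
      · simpa [sg, tauG, gen, ev] using sec_c
    have h2 := h.mul ih
    simpa [sig, tau, ev_append] using h2

theorem sig_length (w : List Lt) : (sig w).length ≤ 3 * w.length := by
  induction w with
  | nil => simp [sig]
  | cons s w ih =>
    have : (sg s).length ≤ 3 := by cases s <;> simp [sg]
    simp only [sig, List.flatMap_cons, List.length_append, List.length_cons] at *
    omega



theorem ev_nil_apply (w : List Lt) : ev w [] = [] := by
  induction w with
  | nil => rfl
  | cons s w ih =>
    rw [ev_cons, Equiv.Perm.mul_apply, ih]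
    cases s <;> rfl

/-- `d` and `ada` commute. -/
theorem adad : a * d * a * d = d * (a * d * a) := by
  have h1 : Sec (a * d * a * d) b b := by
    have := sec_d.conj.mul sec_d
    simpa using this
  have h2 : Sec (d * (a * d * a)) b b := by
    have := sec_d.mul sec_d.conj
    simpa using this
  ext1 w
  match w with
  | [] => rfl
  | false :: w => rw [(h1 w).1, (h2 w).1]
  | true :: w => rw [(h1 w).2, (h2 w).2]

theorem aa : a * a = 1 := gen_sq .A
theorem dd : d * d = 1 := gen_sq .D

/-- The finite set containing all values of `tau`. -/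
def DD : Set (Equiv.Perm (List Bool)) :=
  {1, a, d, a * d, d * a, a * d * a, d * a * d, a * d * a * d}

theorem DD_finite : DD.Finite := by
  unfold DD
  exact Set.toFinite _

theorem DD_a {g : Equiv.Perm (List Bool)} (hg : g ∈ DD) : a * g ∈ DD := by
  simp only [DD, Set.mem_insert_iff, Set.mem_singleton_iff] at hg ⊢
  rcases hg with h | h | h | h | h | h | h | h <;> subst h
  · simp
  · simp [aa]
  · simp
  · rw [← mul_assoc, aa]; simp
  · simp [← mul_assoc]
  · rw [← mul_assoc, ← mul_assoc, aa]; simp
  · rw [← mul_assoc, ← mul_assoc]; simp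
  · rw [← mul_assoc, ← mul_assoc, ← mul_assoc, aa]; simp

theorem DD_d {g : Equiv.Perm (List Bool)} (hg : g ∈ DD) : d * g ∈ DD := by
  simp only [DD, Set.mem_insert_iff, Set.mem_singleton_iff] at hg ⊢
  rcases hg with h | h | h | h | h | h | h | h <;> subst h
  · simp
  · simp
  · simp [dd]
  · rw [← mul_assoc]; simp
  · rw [← mul_assoc, dd]; simp
  · rw [← adad]; simp
  · rw [← mul_assoc, ← mul_assoc, dd]; simp
  · rw [adad, ← mul_assoc, dd]; simp

theorem tau_mem (w : List Lt) : tau w ∈ DD := by
  induction w with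
  | nil => simp [tau, DD]
  | cons s w ih =>
    have : tau (s :: w) = tauG s * tau w := by simp [tau]
    rw [this]
    cases s
    · exact DD_d ih
    · simpa [tauG] using ih
    · exact DD_a ih
    · exact DD_a ih

theorem ev_reverse (u : List Lt) : ev u.reverse = (ev u)⁻¹ := by
  induction u with
  | nil => simp
  | cons s u ih => simp [ev_append, ih, gen_inv]

/-- Elements of `G` are exactly the values of words. -/
theorem ev_mem (w : List Lt) : ev w ∈ G := by
  induction w with
  | nil => exact G.one_mem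
  | cons s w ih =>
    rw [ev_cons]
    refine G.mul_mem ?_ ih
    apply Subgroup.subset_closure
    cases s <;> simp [gen]

theorem exists_word {g : Equiv.Perm (List Bool)} (hg : g ∈ G) : ∃ w, ev w = g := by
  induction hg using Subgroup.closure_induction with
  | mem x hx =>
    simp only [Set.mem_insert_iff, Set.mem_singleton_iff] at hx
    rcases hx with h | h | h | h <;> subst h
    · exact ⟨[.A], by simp [gen]⟩
    · exact ⟨[.B], by simp [gen]⟩
    · exact ⟨[.C], by simp [gen]⟩
    · exact ⟨[.D], by simp [gen]⟩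
  | one => exact ⟨[], rfl⟩
  | mul x y _ _ hx hy =>
    obtain ⟨u, rfl⟩ := hx
    obtain ⟨v, rfl⟩ := hy
    exact ⟨u ++ v, ev_append u v⟩
  | inv x _ hx =>
    obtain ⟨u, rfl⟩ := hx
    exact ⟨u.reverse, ev_reverse u⟩

/-- The element of `G` given by a word. -/
def evG (w : List Lt) : G := ⟨ev w, ev_mem w⟩

theorem list_word (l : List (Equiv.Perm (List Bool)))
    (h : ∀ s ∈ l, s = a ∨ s = b ∨ s = c ∨ s = d) : ∃ w : List Lt, w.map gen = l := by
  induction l with
  | nil => exact ⟨[], rfl⟩
  | cons s l ih =>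
    obtain ⟨w, hw⟩ := ih (fun t ht => h t (List.mem_cons_of_mem _ ht))
    rcases h s (by simp) with h' | h' | h' | h'
    · exact ⟨.A :: w, by simp [gen, hw, h']⟩
    · exact ⟨.B :: w, by simp [gen, hw, h']⟩
    · exact ⟨.C :: w, by simp [gen, hw, h']⟩
    · exact ⟨.D :: w, by simp [gen, hw, h']⟩

theorem len_eq (g : G) : len g = sInf {n : ℕ | ∃ w : List Lt, w.length = n ∧ evG w = g} := by
  unfold len
  congr 1
  ext n
  constructor
  · rintro ⟨l, hl, h, hp⟩
    obtain ⟨w, rfl⟩ := list_word l h
    exact ⟨w, by simpa using hl, Subtype.ext hp⟩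
  · rintro ⟨w, hw, rfl⟩
    refine ⟨w.map gen, by simpa using hw, ?_, rfl⟩
    intro s hs
    obtain ⟨t, -, rfl⟩ := List.mem_map.1 hs
    cases t <;> simp [gen]

theorem exists_geod (g : G) : ∃ w : List Lt, w.length = len g ∧ evG w = g := by
  have hne : {n : ℕ | ∃ w : List Lt, w.length = n ∧ evG w = g}.Nonempty := by
    obtain ⟨w, hw⟩ := exists_word g.2
    exact ⟨w.length, w, rfl, Subtype.ext hw⟩
  have := Nat.sInf_mem hne
  rw [← len_eq] at this
  exact this

theorem len_le (w : List Lt) : len (evG w) ≤ w.length := by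
  rw [len_eq]
  exact Nat.sInf_le ⟨w, rfl, rfl⟩

theorem evG_append (v w : List Lt) : evG (v ++ w) = evG v * evG w :=
  Subtype.ext (ev_append v w)

theorem len_mul_gen_le (g : G) (s : Lt) : len (g * evG [s]) ≤ len g + 1 := by
  obtain ⟨w, hw, rfl⟩ := exists_geod g
  rw [← evG_append, ← hw]
  refine (len_le _).trans ?_
  simp

theorem evG_sq (s : Lt) : evG [s] * evG [s] = 1 := by
  apply Subtype.ext
  simp [evG, gen_sq]

theorem len_le_mul_gen (g : G) (s : Lt) : len g ≤ len (g * evG [s]) + 1 := by
  have := len_mul_gen_le (g * evG [s]) s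
  rwa [mul_assoc, evG_sq, mul_one] at this

theorem words_finite (n : ℕ) : {w : List Lt | w.length ≤ n}.Finite := List.finite_length_le Lt n

theorem ball_finite (n : ℕ) : {g : G | len g ≤ n}.Finite := by
  refine ((words_finite n).image evG).subset ?_
  intro g hg
  obtain ⟨w, hw, rfl⟩ := exists_geod g
  exact ⟨w, by show w.length ≤ n; rw [hw]; exact hg, rfl⟩

instance (n : ℕ) : Finite {g : G // len g ≤ n} := ball_finite n
instance (n : ℕ) : Finite {g : G // len g = n} :=
  (ball_finite n).subset (fun _ hg => le_of_eq hg)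

theorem ball_mono {m n : ℕ} (h : m ≤ n) : ball m ≤ ball n := by
  unfold ball
  exact Nat.card_le_card_of_injective (fun g : {g : G // len g ≤ m} => (⟨g.1, g.2.trans h⟩ : {g : G // len g ≤ n}))
    (fun x y hxy => Subtype.ext (congrArg (fun z => z.1) hxy))

theorem sph_le_ball (n : ℕ) : sph n ≤ ball n := by
  unfold sph ball
  exact Nat.card_le_card_of_injective (fun g : {g : G // len g = n} => (⟨g.1, le_of_eq g.2⟩ : {g : G // len g ≤ n}))
    (fun x y hxy => Subtype.ext (congrArg (fun z => z.1) hxy))

/-- `G` is infinite: `ev w ↦ ev (sig w)` is injective but misses `a`. -/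
instance G_infinite : Infinite G := by
  by_contra hfin
  rw [not_infinite_iff_finite] at hfin
  choose W hW using fun g : G => exists_word g.2
  let F : G → G := fun g => evG (sig (W g))
  have hinj : Function.Injective F := by
    intro g h hgh
    have h1 : ev (sig (W g)) = ev (sig (W h)) := congrArg Subtype.val hgh
    have h2 := sec_sig (W g)
    rw [h1] at h2
    have h3 := (h2.unique (sec_sig (W h))).2
    rw [hW, hW] at h3
    exact Subtype.ext h3
  have hsurj := Finite.injective_iff_surjective.1 hinj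
  obtain ⟨g, hg⟩ := hsurj (evG [.A])
  have h1 : ev (sig (W g)) = a := by
    have := congrArg Subtype.val hg
    simpa [evG, gen, F] using this
  have h2 := (sec_sig (W g) []).1
  rw [h1, a_apply] at h2
  simp [aFun] at h2

/-- Prefixes of `sig v`. -/
theorem prefix_sig (v u : List Lt) (h : u <+: sig v) :
    ∃ v' q, u = sig v' ++ q ∧ (q = [] ∨ q = [.A] ∨ q = [.A, .C]) := by
  induction v generalizing u with
  | nil =>
    simp only [sig, List.flatMap_nil, List.prefix_nil] at h
    exact ⟨[], [], by simp [h, sig], Or.inl rfl⟩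
  | cons s v ih =>
    have hs : sig (s :: v) = sg s ++ sig v := rfl
    rw [hs] at h
    by_cases hu : u.length < (sg s).length
    · have hpre : u <+: sg s := by
        exact List.prefix_of_prefix_length_le h (List.prefix_append _ _) hu.le
      refine ⟨[], u, by simp [sig], ?_⟩
      obtain ⟨r, hr⟩ := hpre
      cases s
      · match u, hu, hr with
        | [], _, _ => exact Or.inl rfl
        | [x], _, hr =>
          simp only [sg, List.cons_append, List.cons.injEq] at hr
          simp [hr.1]
        | [x, y], _, hr =>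
          simp only [sg, List.cons_append, List.cons.injEq] at hr
          simp [hr.1, hr.2.1]
        | x :: y :: z :: t, hu, _ =>
          simp only [sg, List.length_cons, List.length_nil] at hu
          omega
      all_goals
        simp only [sg, List.length_singleton, Nat.lt_one_iff, List.length_eq_zero_iff] at hu
        exact Or.inl hu
    · push Not at hu
      have hpre : sg s <+: u :=
        List.prefix_of_prefix_length_le (List.prefix_append _ _) h hu
      obtain ⟨r, rfl⟩ := hpre
      rw [List.prefix_append_right_inj] at h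
      obtain ⟨v', q, hr, hq⟩ := ih r h
      exact ⟨s :: v', q, by rw [hr]; simp [sig, List.append_assoc], hq⟩



/-- A discrete intermediate value principle. -/
theorem ivt (f : ℕ → ℕ) (hf : ∀ i, f (i + 1) ≤ f i + 1) (N p : ℕ) (hp : f p ≤ N) (k : ℕ)
    (hk : N ≤ f (p + k)) : ∃ i, p ≤ i ∧ f i = N := by
  induction k with
  | zero => exact ⟨p, le_rfl, le_antisymm hp hk⟩
  | succ k ih =>
    by_cases h : N ≤ f (p + k)
    · exact ih h
    · push Not at h
      have h1 := hf (p + k)
      have h2 : N ≤ f (p + k + 1) := hk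
      exact ⟨p + k + 1, by omega, by omega⟩

theorem sec_pair (w v : List Lt) :
    Sec (ev (sig w ++ [.A] ++ sig v) * a) (tau w * ev v) (ev w * tau v) := by
  have h := (sec_sig w).mul (sec_sig v).conj
  have e : ev (sig w ++ [.A] ++ sig v) * a = ev (sig w) * (a * ev (sig v) * a) := by
    simp [ev_append, gen, mul_assoc]
  rw [e]
  exact h

/-- The finite set of correction factors. -/
def RR : Set (Equiv.Perm (List Bool)) := {1, a, c}

theorem RR_finite : RR.Finite := by
  unfold RR
  exact Set.toFinite _

/-- Starting from `sig w` and multiplying by longer and longer prefixes of `a (sig v)`, one meets every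
sphere of radius `N ≥ |sig w|`. -/
theorem hit (w : List Lt) (N : ℕ) (hN : (sig w).length ≤ N) :
    ∃ y : G, len y = N ∧ ∃ r ∈ RR, ∃ δ ∈ DD, ∃ f0, Sec ((y : Equiv.Perm (List Bool)) * r) f0 (ev w * δ) := by
  -- a word leaving the ball of radius `N`
  obtain ⟨v, hv⟩ : ∃ v, N < len (evG (sig w ++ [.A] ++ sig v)) := by
    by_contra hcon
    push Not at hcon
    choose W hW using fun g : G => exists_word g.2
    let F : G → {g : G // len g ≤ N} := fun g => ⟨evG (sig w ++ [.A] ++ sig (W g)), hcon _⟩
    have hinj : Function.Injective F := by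
      intro g h hgh
      have h1 : ev (sig w ++ [.A] ++ sig (W g)) = ev (sig w ++ [.A] ++ sig (W h)) :=
        congrArg (fun z => ((z.1 : G) : Equiv.Perm (List Bool))) hgh
      have h2 := sec_pair w (W g)
      rw [h1] at h2
      have h3 := (h2.unique (sec_pair w (W h))).1
      rw [hW, hW] at h3
      exact Subtype.ext (mul_left_cancel h3)
    have : Finite G := Finite.of_injective F hinj
    exact not_finite G
  set U : List Lt := sig w ++ [.A] ++ sig v with hU
  have hstep : ∀ i, len (evG (U.take (i + 1))) ≤ len (evG (U.take i)) + 1 := by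
    intro i
    by_cases hi : i < U.length
    · rw [List.take_succ_eq_append_getElem hi, evG_append]
      exact len_mul_gen_le _ _
    · push Not at hi
      rw [List.take_of_length_le hi, List.take_of_length_le (by omega)]
      omega
  have hp : len (evG (U.take (sig w).length)) ≤ N := by
    have : U.take (sig w).length = sig w := by
      rw [hU, List.append_assoc, List.take_left]
    rw [this]
    exact (len_le _).trans hN
  have hk : N ≤ len (evG (U.take ((sig w).length + ([Lt.A] ++ sig v).length))) := by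
    have : U.take ((sig w).length + ([Lt.A] ++ sig v).length) = U := by
      apply List.take_of_length_le
      rw [hU, List.append_assoc, List.length_append]
    rw [this]
    exact hv.le
  obtain ⟨i, hi, hiN⟩ := ivt (fun i => len (evG (U.take i))) hstep N _ hp _ hk
  refine ⟨evG (U.take i), hiN, ?_⟩
  have hUi : U.take i = sig w ++ ([Lt.A] ++ sig v).take (i - (sig w).length) := by
    rw [hU, List.append_assoc, List.take_append, List.take_of_length_le hi]
  rcases Nat.eq_zero_or_pos (i - (sig w).length) with h0 | h0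
  · refine ⟨1, by simp [RR], 1, by simp [DD], tau w, ?_⟩
    rw [hUi, h0]
    simpa [evG] using sec_sig w
  · obtain ⟨k, hk⟩ : ∃ k, i - (sig w).length = k + 1 := ⟨i - (sig w).length - 1, by omega⟩
    obtain ⟨v', q, hq, hq'⟩ := prefix_sig v ((sig v).take k) (List.take_prefix _ _)
    have hUi' : U.take i = sig w ++ [.A] ++ sig v' ++ q := by
      rw [hUi, hk, List.singleton_append, List.take_succ_cons, hq]
      simp
    refine ⟨(ev q)⁻¹ * a, ?_, tau v', tau_mem v', tau w * ev v', ?_⟩
    · rcases hq' with rfl | rfl | rfl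
      · simp [RR]
      · simp [RR, gen]
      · have hc : c⁻¹ = c := gen_inv .C
        simp [RR, gen, hc]
    · have e : ((evG (U.take i) : G) : Equiv.Perm (List Bool)) * ((ev q)⁻¹ * a)
          = ev (sig w ++ [.A] ++ sig v') * a := by
        rw [hUi']
        show ev (sig w ++ [.A] ++ sig v' ++ q) * ((ev q)⁻¹ * a) = _
        rw [ev_append _ q]
        simp [mul_assoc]
      rw [e]
      exact sec_pair w v'

/-- Key inequality: `γ(n)² ≤ K γ^sph(N)` for all `N ≥ 18 n + 6`. -/
theorem key : ∃ K : ℕ, 0 < K ∧ ∀ n N : ℕ, 18 * n + 6 ≤ N → ball n ^ 2 ≤ sph N * K := by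
  have : Finite DD := DD_finite
  have : Finite RR := RR_finite
  have : Nonempty DD := ⟨⟨1, by simp [DD]⟩⟩
  have : Nonempty RR := ⟨⟨1, by simp [RR]⟩⟩
  refine ⟨Nat.card (RR × DD × DD × DD), Nat.card_pos, ?_⟩
  intro n N hN
  choose W hW1 hW2 using exists_geod
  let w : G → G → List Lt := fun g h => sig (W g) ++ [.A] ++ sig (W h) ++ [.A]
  have hw : ∀ g h : G, len g ≤ n → len h ≤ n → (sig (w g h)).length ≤ N := by
    intro g h hg hh
    have h1 := sig_length (w g h)
    have h2 := sig_length (W g)
    have h3 := sig_length (W h)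
    have h4 : (w g h).length = (sig (W g)).length + 1 + (sig (W h)).length + 1 := by
      simp only [w, List.length_append, List.length_singleton]
    rw [hW1] at h2 h3
    omega
  choose! y hy r hr δ hδ f0 hS using hit
  have hevw : ∀ g h : G, Sec (ev (w g h)) (tau (W g) * ev (W h)) (ev (W g) * tau (W h)) := by
    intro g h
    have := sec_pair (W g) (W h)
    have e : ev (w g h) = ev (sig (W g) ++ [.A] ++ sig (W h)) * a := by
      simp only [w]
      rw [ev_append _ [Lt.A]]
      simp [gen]
    rw [e]
    exact this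
  let F : {g : G // len g ≤ n} × {g : G // len g ≤ n} → {g : G // len g = N} × (RR × DD × DD × DD) :=
    fun p => (⟨y (w p.1 p.2) N, hy _ _ (hw _ _ p.1.2 p.2.2)⟩,
      (⟨r (w p.1 p.2) N, hr _ _ (hw _ _ p.1.2 p.2.2)⟩, ⟨δ (w p.1 p.2) N, hδ _ _ (hw _ _ p.1.2 p.2.2)⟩,
        ⟨tau (W p.1), tau_mem _⟩, ⟨tau (W p.2), tau_mem _⟩))
  have hF : Function.Injective F := by
    rintro ⟨g, h⟩ ⟨g', h'⟩ hE
    simp only [F, Prod.mk.injEq, Subtype.mk.injEq] at hE
    obtain ⟨e1, e2, e3, e4, e5⟩ := hE
    have s1 := hS _ _ (hw _ _ g.2 h.2)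
    have s2 := hS _ _ (hw _ _ g'.2 h'.2)
    rw [e1, e2, e3] at s1
    have e6 := mul_right_cancel (s1.unique s2).2
    have s3 := hevw g h
    rw [e6] at s3
    obtain ⟨e7, e8⟩ := s3.unique (hevw g' h')
    rw [e4] at e7
    rw [e5] at e8
    have e9 := mul_left_cancel e7
    have e10 := mul_right_cancel e8
    have e11 : evG (W g) = evG (W g') := Subtype.ext e10
    have e12 : evG (W h) = evG (W h') := Subtype.ext e9
    rw [hW2, hW2] at e11 e12
    exact Prod.ext (Subtype.ext e11) (Subtype.ext e12)
  have := Nat.card_le_card_of_injective F hF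
  rw [Nat.card_prod, Nat.card_prod] at this
  unfold ball sph
  rw [sq]
  exact this

theorem ball_unbounded (K : ℕ) : ∃ n, K ≤ ball n := by
  obtain ⟨s, hs⟩ := Infinite.exists_subset_card_eq G K
  refine ⟨s.sup len, ?_⟩
  unfold ball
  have h1 : Nat.card s = K := by simp [hs]
  rw [← h1]
  exact Nat.card_le_card_of_injective
    (fun g : s => (⟨g.1, Finset.le_sup g.2⟩ : {g : G // len g ≤ s.sup len}))
    (fun x y hxy => Subtype.ext (congrArg (fun z => z.1) hxy))

/-- The spheres eventually dominate the balls: there is `C` with `γ(n) ≤ γ^sph(N)` for all `n ≥ 1`, `N ≥ C n`. -/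
theorem ball_le_sph : ∃ C : ℕ, 1 ≤ C ∧ ∀ n : ℕ, 1 ≤ n → ∀ N : ℕ, C * n ≤ N → ball n ≤ sph N := by
  obtain ⟨K, hK, hkey⟩ := key
  obtain ⟨m, hm⟩ := ball_unbounded K
  refine ⟨18 + 18 * m + 6, by omega, ?_⟩
  intro n hn N hN
  have h1 : 18 * (n + m) + 6 ≤ N := by
    refine le_trans ?_ hN
    nlinarith
  have h2 := hkey (n + m) N h1
  have h3 : K ≤ ball (n + m) := hm.trans (ball_mono (by omega))
  have h4 : ball n ≤ ball (n + m) := ball_mono (by omega)
  have h5 : ball (n + m) * K ≤ sph N * K := by
    calc ball (n + m) * K ≤ ball (n + m) * ball (n + m) := Nat.mul_le_mul_left _ h3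
      _ = ball (n + m) ^ 2 := (sq _).symm
      _ ≤ sph N * K := h2
  exact h4.trans (Nat.le_of_mul_le_mul_right h5 hK)

/-- Number of letters `A` in a word. -/
def nA : List Lt → ℕ
  | [] => 0
  | .A :: w => nA w + 1
  | _ :: w => nA w

theorem sig_length' (w : List Lt) : (sig w).length = w.length + 2 * nA w := by
  induction w with
  | nil => simp [sig, nA]
  | cons s w ih =>
    have : sig (s :: w) = sg s ++ sig w := rfl
    rw [this, List.length_append, ih]
    cases s <;> simp [sg, nA] <;> omega

/-- A word of minimal length contains at most `(n + 1) / 2` letters `A`. -/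
theorem nA_le (w : List Lt) (hw : ∀ v : List Lt, ev v = ev w → w.length ≤ v.length) :
    2 * nA w ≤ w.length + 1 := by
  induction w using List.twoStepInduction with
  | nil => simp [nA]
  | singleton s => cases s <;> simp [nA]
  | cons_cons s t w ih1 ih2 =>
    have hred : ∀ v : List Lt, ev v = ev (t :: w) → (t :: w).length ≤ v.length := by
      intro v hv
      have := hw (s :: v) (by rw [ev_cons, hv, ev_cons s])
      simpa using this
    have hred2 : ∀ v : List Lt, ev v = ev w → w.length ≤ v.length := by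
      intro v hv
      have := hred (t :: v) (by rw [ev_cons, hv, ev_cons t])
      simpa using this
    have i1 := ih1 hred2
    have i2 := ih2 t hred
    cases s
    · cases t
      · exfalso
        have := hw w (by rw [ev_cons, ev_cons, ← mul_assoc, gen_sq, one_mul])
        simp at this
      all_goals
        simp only [nA, List.length_cons] at *
        omega
    all_goals
      simp only [nA, List.length_cons] at *
      omega

theorem geod_sig (g : G) : ∃ w : List Lt, evG w = g ∧ (sig w).length ≤ 2 * len g + 1 := by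
  obtain ⟨w, hw, hg⟩ := exists_geod g
  refine ⟨w, hg, ?_⟩
  have h : 2 * nA w ≤ w.length + 1 := by
    apply nA_le
    intro v hv
    rw [hw, ← hg]
    have : evG w = evG v := Subtype.ext hv.symm
    rw [this]
    exact len_le v
  rw [sig_length', hw] at *
  omega

/-- `γ(n)² ≤ K γ(4n+4)`. -/
theorem ball_sq : ∃ K : ℕ, 0 < K ∧ ∀ n : ℕ, ball n ^ 2 ≤ ball (4 * n + 4) * K := by
  have : Finite DD := DD_finite
  have : Nonempty DD := ⟨⟨1, by simp [DD]⟩⟩
  refine ⟨Nat.card (DD × DD), Nat.card_pos, ?_⟩
  intro n
  choose W hW1 hW2 using geod_sig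
  let w : G → G → List Lt := fun g h => sig (W g) ++ [.A] ++ sig (W h) ++ [.A]
  have hw : ∀ g h : G, len g ≤ n → len h ≤ n → len (evG (w g h)) ≤ 4 * n + 4 := by
    intro g h hg hh
    have h1 := len_le (w g h)
    have h2 := hW2 g
    have h3 := hW2 h
    have h4 : (w g h).length = (sig (W g)).length + 1 + (sig (W h)).length + 1 := by
      simp only [w, List.length_append, List.length_singleton]
    omega
  have hevw : ∀ g h : G, Sec (ev (w g h)) (tau (W g) * ev (W h)) (ev (W g) * tau (W h)) := by
    intro g h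
    have := sec_pair (W g) (W h)
    have e : ev (w g h) = ev (sig (W g) ++ [.A] ++ sig (W h)) * a := by
      simp only [w]
      rw [ev_append _ [Lt.A]]
      simp [gen]
    rw [e]
    exact this
  let F : {g : G // len g ≤ n} × {g : G // len g ≤ n} → {g : G // len g ≤ 4 * n + 4} × (DD × DD) :=
    fun p => (⟨evG (w p.1 p.2), hw _ _ p.1.2 p.2.2⟩,
      (⟨tau (W p.1), tau_mem _⟩, ⟨tau (W p.2), tau_mem _⟩))
  have hF : Function.Injective F := by
    rintro ⟨g, h⟩ ⟨g', h'⟩ hE
    simp only [F, Prod.mk.injEq, Subtype.mk.injEq] at hE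
    obtain ⟨e1, e4, e5⟩ := hE
    have e6 : ev (w g h) = ev (w g' h') := congrArg Subtype.val e1
    have s3 := hevw g h
    rw [e6] at s3
    obtain ⟨e7, e8⟩ := s3.unique (hevw g' h')
    rw [e4] at e7
    rw [e5] at e8
    have e9 := mul_left_cancel e7
    have e10 := mul_right_cancel e8
    have e11 : evG (W g) = evG (W g') := Subtype.ext e10
    have e12 : evG (W h) = evG (W h') := Subtype.ext e9
    rw [hW1, hW1] at e11 e12
    exact Prod.ext (Subtype.ext e11) (Subtype.ext e12)
  have := Nat.card_le_card_of_injective F hF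
  rw [Nat.card_prod, Nat.card_prod] at this
  unfold ball
  rw [sq]
  exact this

/-- Lower bound for the ball growth along powers of `4`. -/
theorem ball_pow : ∃ M : ℕ, 0 < M ∧ ∀ j : ℕ, 3 ^ (2 ^ j) ≤ ball (M * 4 ^ j) := by
  obtain ⟨K, hK, hkey⟩ := ball_sq
  obtain ⟨m, hm⟩ := ball_unbounded (K * 3)
  refine ⟨m + 2, by omega, ?_⟩
  have hind : ∀ j : ℕ, ∃ n : ℕ, n + 2 ≤ (m + 2) * 4 ^ j ∧ K * 3 ^ (2 ^ j) ≤ ball n := by
    intro j
    induction j with
    | zero => exact ⟨m, by simp, by simpa using hm⟩
    | succ j ih =>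
      obtain ⟨n, hn1, hn2⟩ := ih
      refine ⟨4 * n + 4, ?_, ?_⟩
      · rw [pow_succ]
        nlinarith
      · have h1 := hkey n
        have h2 : (K * 3 ^ (2 ^ j)) ^ 2 ≤ ball (4 * n + 4) * K :=
          (Nat.pow_le_pow_left hn2 2).trans h1
        have h3 : (K * 3 ^ (2 ^ j)) ^ 2 = (K * 3 ^ (2 ^ (j + 1))) * K := by
          rw [pow_succ 2 j, pow_mul]
          ring
        rw [h3] at h2
        exact Nat.le_of_mul_le_mul_right h2 hK
  intro j
  obtain ⟨n, hn1, hn2⟩ := hind j
  calc 3 ^ (2 ^ j) ≤ K * 3 ^ (2 ^ j) := Nat.le_mul_of_pos_left _ hK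
    _ ≤ ball n := hn2
    _ ≤ ball ((m + 2) * 4 ^ j) := ball_mono (by omega)

theorem sph_zero_pos : 1 ≤ sph 0 := by
  unfold sph
  have : Nonempty {g : G // len g = 0} := ⟨⟨evG [], Nat.le_zero.1 (len_le [])⟩⟩
  exact Nat.card_pos

/-- **Main theorem**: `e^(n^(1/2)) ⪯ γ^sph(n)` for the first Grigorchuk group. -/
theorem result : ∃ C : ℕ, 0 < C ∧ ∀ n : ℕ,
    Real.exp ((n : ℝ) ^ (1 / 2 : ℝ)) ≤ (sph (C * n) : ℝ) := by
  obtain ⟨C, hC, h⟩ := ball_le_sph
  obtain ⟨M, hM, hpow⟩ := ball_pow
  refine ⟨C * (4 * M), by positivity, ?_⟩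
  intro n
  rcases Nat.eq_zero_or_pos n with rfl | hn
  · have := sph_zero_pos
    simp only [Nat.cast_zero, mul_zero]
    rw [Real.zero_rpow (by norm_num), Real.exp_zero]
    exact_mod_cast this
  · obtain ⟨j, hj1, hj2⟩ : ∃ j : ℕ, 4 ^ j ≤ n ∧ n < 4 ^ (j + 1) :=
      ⟨Nat.log 4 n, Nat.pow_log_le_self 4 (by omega), Nat.lt_pow_succ_log_self (by norm_num) n⟩
    have h1 : ((n : ℝ)) ^ (1 / 2 : ℝ) ≤ 2 ^ (j + 1) := by
      rw [← Real.sqrt_eq_rpow]
      apply Real.sqrt_le_iff.2
      refine ⟨by positivity, ?_⟩
      have : (n : ℝ) ≤ (4 : ℝ) ^ (j + 1) := by exact_mod_cast hj2.le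
      calc (n : ℝ) ≤ (4 : ℝ) ^ (j + 1) := this
        _ = (2 ^ (j + 1)) ^ 2 := by rw [← pow_mul, mul_comm, pow_mul]; norm_num
    have h2 : Real.exp ((n : ℝ) ^ (1 / 2 : ℝ)) ≤ (3 : ℝ) ^ (2 ^ (j + 1)) := by
      calc Real.exp ((n : ℝ) ^ (1 / 2 : ℝ)) ≤ Real.exp ((2 ^ (j + 1) : ℕ) : ℝ) := by
            apply Real.exp_le_exp.2
            push_cast
            exact h1
        _ = Real.exp 1 ^ (2 ^ (j + 1)) := by rw [← Real.exp_nat_mul, mul_one]
        _ ≤ 3 ^ (2 ^ (j + 1)) := by
            apply pow_le_pow_left₀ (Real.exp_pos 1).le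
            linarith [Real.exp_one_lt_d9]
    have h3 : (3 : ℝ) ^ (2 ^ (j + 1)) ≤ (ball (M * 4 ^ (j + 1)) : ℝ) := by
      exact_mod_cast hpow (j + 1)
    have h4 : ball (M * 4 ^ (j + 1)) ≤ ball (4 * M * n) := by
      apply ball_mono
      rw [pow_succ]
      nlinarith
    have h5 : ball (4 * M * n) ≤ sph (C * (4 * M) * n) :=
      h _ (Nat.mul_pos (by positivity) hn) _ (le_of_eq (by ring))
    have h6 : (ball (M * 4 ^ (j + 1)) : ℝ) ≤ (sph (C * (4 * M) * n) : ℝ) := by
      exact_mod_cast h4.trans h5
    exact h2.trans (h3.trans h6)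

end Pool.Agent.Results.MP_bbfbdc_al.SphereLower
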